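import Pool.Agent.Y874.TP.Stm
import Pool.Agent.Y468.SR.StepInv

/-! TP-REN: renaming of the crossings (helper448); adapted from `inv_renamed` of helper468. -/

namespace Pool.Agent.Y448.TP

open Pool.Agent.Y468.SR Pool.Agent.Y874.TP

theorem exists_left_inv {f : ℕ → ℕ} {D : Code} (hf : ∀ p ∈ passes D, ∀ q ∈ passes D,
    f p.crossing = f q.crossing → p.crossing = q.crossing) :
    ∃ g : ℕ → ℕ, ∀ p ∈ passes D, g (f p.crossing) = p.crossing := by
  classical
  refine ⟨fun y => if h : ∃ p ∈ passes D, f p.crossing = y then h.choose.crossing else 0,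
    fun p hp => ?_⟩
  have h1 : ∃ p' ∈ passes D, f p'.crossing = f p.crossing := ⟨p, hp, rfl⟩
  simp only
  rw [dif_pos h1]
  exact hf _ h1.choose_spec.1 p hp h1.choose_spec.2

theorem ren_one {f : ℕ → ℕ} {D : Code} (hf : ∀ p ∈ passes D, ∀ q ∈ passes D,
    f p.crossing = f q.crossing → p.crossing = q.crossing)
    (hc : ∀ p ∈ passes D, colour (f p.crossing) = colour p.crossing)
    (h : InvC (renamed f D)) : InvC D := by
  classical
  obtain ⟨g, hg⟩ := exists_left_inv hf
  obtain ⟨m, hm, hcm, hn⟩ := h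
  have key : ∀ p ∈ passes D, ∃ q ∈ passes D, f q.crossing = m (f p.crossing) ∧
      m (f q.crossing) = f p.crossing ∧ (f q.crossing ≠ f p.crossing → q.isPos = !p.isPos) := by
    intro p hp
    obtain ⟨q', hq', h1, h2, h3⟩ := hm ⟨f p.crossing, p.isOver, p.isPos⟩
      (mem_renamed.2 ⟨p, hp, rfl⟩)
    obtain ⟨q, hq, rfl⟩ := mem_renamed.1 hq'
    exact ⟨q, hq, h1, h2, h3⟩
  refine ⟨fun c => g (m (f c)), fun p hp => ?_, fun p hp => ?_, fun G _ o u hv b => ?_⟩
  · obtain ⟨q, hq, h1, h2, h3⟩ := key p hp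
    refine ⟨q, hq, ?_, ?_, fun h => h3 fun h' => h (hf q hq p hp h')⟩
    · simp only; rw [← h1, hg q hq]
    · simp only; rw [h2, hg p hp]
  · obtain ⟨q, hq, h1, h2, h3⟩ := key p hp
    obtain ⟨c1, c2⟩ := hcm ⟨f p.crossing, p.isOver, p.isPos⟩ (mem_renamed.2 ⟨p, hp, rfl⟩)
    simp only at c1 c2 ⊢
    rw [← h1, hg q hq]
    rw [← h1] at c1 c2
    rw [hc q hq, hc p hp] at c1
    rw [hc p hp] at c2
    exact ⟨c1, fun h0 h4 => c2 h0 (by rw [h4])⟩
  · have e : vals (fun c => o (g c)) (fun c => u (g c)) (renamed f D) = vals o u D := by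
      unfold vals renamed
      rw [List.map_map]
      refine List.map_congr_left fun C hC => ?_
      simp only [Function.comp, Prod.mk.injEq, and_true]
      have hw : ∀ r ∈ C.1, r ∈ passes D := fun r hr => mem_passes.2 ⟨C, hC, hr⟩
      revert hw
      generalize C.1 = w
      intro hw
      induction w with
      | nil => rfl
      | cons r w ih =>
        rw [List.map_cons, wval_cons, wval_cons, ih fun r' hr' => hw r' (by simp [hr'])]
        simp only [val, hg r (hw r (by simp))]
    rw [← e]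
    refine hn G _ _ (fun r hr => ?_) b
    obtain ⟨p, hp, rfl⟩ := mem_renamed.1 hr
    obtain ⟨q, hq, h1, h2, h3⟩ := key p hp
    obtain ⟨k1, k2⟩ := hv p hp
    simp only at k1 k2 ⊢
    rw [← h1, hg q hq, hg p hp]
    rw [← h1, hg q hq] at k1 k2
    refine ⟨fun h => k1 (hf q hq p hp h), fun h => k2 fun h' => h (by rw [h'])⟩

theorem ren_ren {f g : ℕ → ℕ} {D : Code} (hg : ∀ p ∈ passes D, g (f p.crossing) = p.crossing) :
    renamed g (renamed f D) = D := by
  unfold renamed
  rw [List.map_map]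
  conv_rhs => rw [← List.map_id D]
  refine List.map_congr_left fun C hC => ?_
  simp only [Function.comp, List.map_map, id]
  refine Prod.ext ?_ rfl
  simp only
  conv_rhs => rw [← List.map_id C.1]
  refine List.map_congr_left fun p hp => ?_
  simp only [Function.comp, id]
  rw [hg p (mem_passes.2 ⟨C, hC, hp⟩)]

theorem ren : S_REN := by
  intro f D hf hc
  constructor
  · intro h
    obtain ⟨g, hg⟩ := exists_left_inv hf
    have e := ren_ren hg
    rw [← e] at h
    refine ren_one ?_ ?_ h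
    · intro p' hp' q' hq' heq
      obtain ⟨p, hp, rfl⟩ := mem_renamed.1 hp'
      obtain ⟨q, hq, rfl⟩ := mem_renamed.1 hq'
      simp only at heq ⊢
      rw [hg p hp, hg q hq] at heq
      rw [heq]
    · intro p' hp'
      obtain ⟨p, hp, rfl⟩ := mem_renamed.1 hp'
      simp only
      rw [hg p hp, hc p hp]
  · exact ren_one hf hc

end Pool.Agent.Y448.TP
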